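import Pool.Agent.H834R2.Act
import Pool.Agent.H834R2.Flow

/-! A closed smooth four-manifold without circle actions but with free cyclic actions of
infinitely many prime orders. -/

set_option autoImplicit false

open Set Filter Topology
open scoped Topology ContDiff Real Manifold

namespace Pool.Agent.Results.MP_3f8e0b_gt.NoCircle

open Pool.Agent.H834R2

lemma secondCountable_X : SecondCountableTopology X :=
  TopologicalSpace.IsTopologicalBasis.secondCountableTopology
    ((TopologicalSpace.isBasis_countableBasis S).isQuotientMap pr_cov.toIsQuotientMap hl.isOpenMap)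
    ((TopologicalSpace.countable_countableBasis S).image _)

/-- every smooth circle action gives a flow of period one -/
lemma isFlow_of_action (A : MulAction Circle X)
    (hA : ContMDiff ((𝓡 1).prod (𝓡 4)) (𝓡 4) ∞ (fun z : Circle × X => z.1 • z.2)) :
    IsFlow (fun t x => Circle.exp (2 * π * t) • x) where
  smooth := by
    have h1 : ContMDiff 𝓘(ℝ, ℝ) (𝓡 1) ∞ (fun t : ℝ => Circle.exp (2 * π * t)) := by
      have h2 : ContDiff ℝ ∞ (fun t : ℝ => 2 * π * t) := contDiff_const.mul contDiff_id
      exact contMDiff_circleExp.comp h2.contMDiff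
    have h3 : ContMDiff (𝓘(ℝ, ℝ).prod (𝓡 4)) ((𝓡 1).prod (𝓡 4)) ∞
        (fun z : ℝ × X => (Circle.exp (2 * π * z.1), z.2)) :=
      (h1.comp contMDiff_fst).prodMk contMDiff_snd
    exact hA.comp h3
  zero x := by
    show Circle.exp (2 * π * 0) • x = x
    rw [mul_zero, Circle.exp_zero, one_smul]
  add s t x := by
    show Circle.exp (2 * π * (s + t)) • x = Circle.exp (2 * π * s) • Circle.exp (2 * π * t) • x
    rw [mul_add, Circle.exp_add, mul_smul]
  one x := by
    show Circle.exp (2 * π * 1) • x = x
    rw [mul_one, Circle.exp_two_pi, one_smul]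

/-- There is a closed connected smooth four-manifold on which every smooth circle action is trivial
but which carries, for each of the infinitely many primes `p` congruent to `1` modulo `4`, a free
smooth action of the cyclic group of order `p`. -/
theorem result :
    ∃ (X : Type) (_ : TopologicalSpace X) (_ : ChartedSpace (EuclideanSpace ℝ (Fin 4)) X),
      IsManifold (𝓡 4) ∞ X ∧ CompactSpace X ∧ T2Space X ∧ SecondCountableTopology X ∧
      ConnectedSpace X ∧
      (∀ _ : MulAction Circle X,
        ContMDiff ((𝓡 1).prod (𝓡 4)) (𝓡 4) ∞ (fun z : Circle × X => z.1 • z.2) →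
          ∀ (z : Circle) (x : X), z • x = x) ∧
      (∀ p : ℕ, p.Prime → p % 4 = 1 →
        ∃ _ : MulAction (Multiplicative (ZMod p)) X,
          (∀ g : Multiplicative (ZMod p), ContMDiff (𝓡 4) (𝓡 4) ∞ (fun x : X => g • x)) ∧
          ∀ g : Multiplicative (ZMod p), g ≠ 1 → ∀ x : X, g • x ≠ x) ∧
      {p : ℕ | p.Prime ∧ p % 4 = 1}.Infinite := by
  refine ⟨X, inferInstance, inferInstance, inferInstance, inferInstance, inferInstance,
    secondCountable_X, inferInstance, ?_, exists_cyclic_action, ?_⟩
  · intro A hA z x
    obtain ⟨t, ht⟩ : ∃ t : ℝ, Circle.exp t = z := Circle.exp_surjective z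
    have h1 := flow_trivial (isFlow_of_action A hA) (t / (2 * π)) x
    have h2 : 2 * π * (t / (2 * π)) = t := by
      have := Real.pi_pos.ne'
      field_simp
    beta_reduce at h1
    rw [h2, ht] at h1
    exact h1
  · have h := Nat.infinite_setOfPred_prime_modEq_one (k := 4) (by norm_num)
    apply h.mono
    rintro p ⟨hp, h4⟩
    exact ⟨hp, h4⟩

end Pool.Agent.Results.MP_3f8e0b_gt.NoCircle
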